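import Mathlib
import Pool.Agent.H749R6.MG.Core
import Pool.Agent.H749R6.CM.Fin

/-! Small gaps after the primes whose index is a multiple of `n`. -/

set_option autoImplicit false

namespace Pool.Agent.H749R6.IX

open Finset Filter Topology

/-- `p_{kn+j} - p_{kn} ≤ lam log p_{kn}` -/
def F (n j : ℕ) (lam : ℝ) (k : ℕ) : Prop :=
  (Nat.nth Nat.Prime (k * n - 1 + j) : ℝ) - Nat.nth Nat.Prime (k * n - 1) ≤
    lam * Real.log (Nat.nth Nat.Prime (k * n - 1))

/-- one window -/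
theorem window (n j : ℕ) (lam : ℝ) (hn : 0 < n) (hlam : 0 < lam) (a : ℕ) (ha : 1 ≤ a)
    (h : Nat.primeCounting ⌊(a : ℝ) + lam * Real.log a⌋₊ = Nat.primeCounting a + (n + j)) :
    F n j lam (Nat.primeCounting a / n + 1) ∧
      a < Nat.nth Nat.Prime ((Nat.primeCounting a / n + 1) * n - 1) ∧
      (Nat.nth Nat.Prime ((Nat.primeCounting a / n + 1) * n - 1) : ℝ) ≤
        (a : ℝ) + lam * Real.log a := by
  obtain ⟨s, hs⟩ : ∃ s, s = Nat.primeCounting a := ⟨_, rfl⟩
  rw [← hs] at h ⊢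
  obtain ⟨i, hi⟩ : ∃ i, i = (s / n + 1) * n - 1 := ⟨_, rfl⟩
  have h1 : s / n * n ≤ s := Nat.div_mul_le_self s n
  have h2 : s < (s / n + 1) * n := by
    have := Nat.lt_div_mul_add (a := s) hn
    rw [add_mul, one_mul]
    exact this
  have hi1 : s ≤ i := by omega
  have hi2 : i + 1 ≤ s + n := by
    rw [add_mul, one_mul] at hi
    omega
  have hlog : 0 ≤ Real.log (a : ℝ) := Real.log_natCast_nonneg a
  have hlo : a + 1 ≤ Nat.nth Nat.Prime i := by
    by_contra hcon
    push Not at hcon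
    have h3 : i < Nat.primeCounting a := (Nat.lt_nth_iff_count_lt Nat.infinite_setOfPred_prime).2 hcon
    omega
  have hup : ∀ l : ℕ, l < s + (n + j) → (Nat.nth Nat.Prime l : ℝ) ≤ (a : ℝ) + lam * Real.log a := by
    intro l hl
    have h3 : Nat.nth Nat.Prime l < ⌊(a : ℝ) + lam * Real.log a⌋₊ + 1 := by
      apply Nat.nth_lt_of_lt_count
      change l < Nat.primeCounting ⌊(a : ℝ) + lam * Real.log a⌋₊
      omega
    have h4 : Nat.nth Nat.Prime l ≤ ⌊(a : ℝ) + lam * Real.log a⌋₊ := by omega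
    exact (Nat.cast_le.2 h4).trans (Nat.floor_le (by positivity))
  have hlo' : (a : ℝ) + 1 ≤ Nat.nth Nat.Prime i := by exact_mod_cast hlo
  have ha0 : (0 : ℝ) < a := by exact_mod_cast ha
  refine ⟨?_, ?_, ?_⟩
  · unfold F
    rw [← hi]
    have h5 := hup (i + j) (by omega)
    have h6 : lam * Real.log a ≤ lam * Real.log (Nat.nth Nat.Prime i) := by
      apply mul_le_mul_of_nonneg_left _ hlam.le
      exact Real.log_le_log ha0 (by linarith)
    linarith
  · rw [← hi]
    omega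
  · rw [← hi]
    exact hup i (by omega)

theorem main (n j : ℕ) (lam : ℝ) (hn : 0 < n) (hlam : 0 < lam) :
    ∃ c : ℝ, 0 < c ∧ ∃ K₀ : ℕ, ∀ K : ℕ, K₀ ≤ K →
      c * K ≤ ({k : ℕ | k ∈ Finset.Icc 1 K ∧ F n j lam k}.ncard : ℝ) := by
  classical
  obtain ⟨c, hc, N₀, hN₀⟩ := Pool.Agent.H749R6.CM.pois lam 0 (n + j) hlam le_rfl
  obtain ⟨T₀, hT₀⟩ := eventually_atTop.1 (Pool.Agent.H749R6.MG.count_bound 1 one_pos)
  have ev1 : ∀ᶠ z : ℝ in atTop, 0 < z ∧ 1 ≤ Real.log z ∧ Real.log (z + 1) ≤ 2 * Real.log z := by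
    filter_upwards [eventually_ge_atTop (2 : ℝ), Real.tendsto_log_atTop.eventually_ge_atTop 1]
      with z hz hz1
    refine ⟨by linarith, hz1, ?_⟩
    have h1 : Real.log (z + 1) ≤ Real.log (z ^ 2) := Real.log_le_log (by linarith) (by nlinarith)
    rw [Real.log_pow] at h1
    exact_mod_cast h1
  obtain ⟨Z₀, hZ₀⟩ := eventually_atTop.1 ev1
  obtain ⟨B, hB⟩ := exists_nat_ge (max (max T₀ Z₀) N₀)
  have hBT : T₀ ≤ B := ((le_max_left _ _).trans (le_max_left _ _)).trans hB
  have hBZ : Z₀ ≤ B := ((le_max_right _ _).trans (le_max_left _ _)).trans hB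
  have hBN : N₀ ≤ B := by exact_mod_cast (le_max_right _ _).trans hB
  refine ⟨c / (32 * lam), by positivity, B + 2, fun K hK => ?_⟩
  obtain ⟨M, hM⟩ : ∃ M, M = (K - 1) * n := ⟨_, rfl⟩
  obtain ⟨N, hN⟩ : ∃ N, N = Nat.nth Nat.Prime M - 1 := ⟨_, rfl⟩
  have hMK : K - 1 ≤ M := by
    rw [hM]
    exact Nat.le_mul_of_pos_right _ hn
  have hnthM : M + 1 ≤ Nat.nth Nat.Prime M := by
    have := Nat.add_two_le_nth_prime M
    omega
  have hNM : M ≤ N := by omega
  have hpi : Nat.primeCounting N = M := by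
    have h1 : Nat.primeCounting N = Nat.primeCounting' (N + 1) := rfl
    rw [h1, hN, Nat.sub_add_cancel (by omega)]
    exact Nat.primeCounting'_nth_eq M
  have hBN' : B + 1 ≤ N := by omega
  have hBNR : (B : ℝ) + 1 ≤ N := by exact_mod_cast hBN'
  obtain ⟨z1, z2, z3⟩ := hZ₀ N (by linarith)
  have hpiN := hT₀ N (by linarith)
  rw [one_mul, Nat.floor_natCast, hpi] at hpiN
  have hcount := hN₀ N (by omega)
  obtain ⟨S, hS⟩ : ∃ S : Finset ℕ, S = (Finset.Icc 1 N).filter (fun a : ℕ =>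
      Nat.primeCounting ⌊(a : ℝ) + lam * Real.log a⌋₊ = Nat.primeCounting a + (n + j)) := ⟨_, rfl⟩
  have hSc : c * N ≤ S.card := by
    refine hcount.trans ?_
    rw [← Set.ncard_coe_finset]
    apply Nat.cast_le.2
    apply Set.ncard_le_ncard _ (Finset.finite_toSet S)
    intro a ha
    rw [hS, Finset.mem_coe, Finset.mem_filter]
    exact ⟨ha.1, ha.2.1⟩
  have hmem : ∀ a ∈ S, 1 ≤ a ∧ a ≤ N ∧
      Nat.primeCounting ⌊(a : ℝ) + lam * Real.log a⌋₊ = Nat.primeCounting a + (n + j) := by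
    intro a ha
    rw [hS, Finset.mem_filter, Finset.mem_Icc] at ha
    exact ⟨ha.1.1, ha.1.2, ha.2⟩
  obtain ⟨W, hW⟩ : ∃ W : ℕ, W = ⌊lam * Real.log N⌋₊ := ⟨_, rfl⟩
  have hfib : ∀ k ∈ S.image (fun a => Nat.primeCounting a / n + 1),
      (S.filter (fun a => Nat.primeCounting a / n + 1 = k)).card ≤ W := by
    intro k hk
    have h1 : S.filter (fun a => Nat.primeCounting a / n + 1 = k) ⊆
        Finset.Ico (Nat.nth Nat.Prime (k * n - 1) - W) (Nat.nth Nat.Prime (k * n - 1)) := by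
      intro a ha
      rw [Finset.mem_filter] at ha
      obtain ⟨ha1, rfl⟩ := ha
      obtain ⟨b1, b2, b3⟩ := hmem a ha1
      obtain ⟨-, w2, w3⟩ := window n j lam hn hlam a b1 b3
      rw [Finset.mem_Ico]
      refine ⟨?_, w2⟩
      have b1' : (0 : ℝ) < a := by exact_mod_cast b1
      have b2' : (a : ℝ) ≤ N := by exact_mod_cast b2
      have h2 : Nat.nth Nat.Prime ((Nat.primeCounting a / n + 1) * n - 1) - a ≤ W := by
        rw [hW]
        apply Nat.le_floor
        rw [Nat.cast_sub w2.le]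
        have h3 : lam * Real.log a ≤ lam * Real.log N :=
          mul_le_mul_of_nonneg_left (Real.log_le_log b1' b2') hlam.le
        linarith
      omega
    refine (Finset.card_le_card h1).trans ?_
    rw [Nat.card_Ico]
    omega
  have himg := Finset.card_le_mul_card_image S W hfib
  have hsub : ((S.image (fun a => Nat.primeCounting a / n + 1) : Finset ℕ) : Set ℕ) ⊆
      {k : ℕ | k ∈ Finset.Icc 1 K ∧ F n j lam k} := by
    intro k hk
    rw [Finset.mem_coe, Finset.mem_image] at hk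
    obtain ⟨a, ha, rfl⟩ := hk
    obtain ⟨b1, b2, b3⟩ := hmem a ha
    refine ⟨?_, (window n j lam hn hlam a b1 b3).1⟩
    rw [Finset.mem_Icc]
    refine ⟨Nat.le_add_left 1 _, ?_⟩
    have h2 : Nat.primeCounting a ≤ M := hpi ▸ Nat.monotone_primeCounting b2
    have h3 : Nat.primeCounting a / n ≤ M / n := Nat.div_le_div_right h2
    rw [hM, Nat.mul_div_cancel _ hn] at h3
    omega
  have hcard := Set.ncard_le_ncard hsub
    ((Finset.finite_toSet (Finset.Icc 1 K)).subset fun k hk => hk.1)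
  rw [Set.ncard_coe_finset] at hcard
  have h4 : c * N ≤ lam * Real.log N *
      ({k : ℕ | k ∈ Finset.Icc 1 K ∧ F n j lam k}.ncard : ℝ) := by
    refine hSc.trans ?_
    have h5 : (S.card : ℝ) ≤ W * ((S.image (fun a => Nat.primeCounting a / n + 1)).card : ℝ) := by
      exact_mod_cast himg
    have h6 : (W : ℝ) ≤ lam * Real.log N := hW ▸ Nat.floor_le (by positivity)
    have h7 : ((S.image (fun a => Nat.primeCounting a / n + 1)).card : ℝ) ≤
        ({k : ℕ | k ∈ Finset.Icc 1 K ∧ F n j lam k}.ncard : ℝ) := by exact_mod_cast hcard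
    refine h5.trans ?_
    gcongr
  have hK1 : (K : ℝ) / 2 ≤ M := by
    have h8 : K ≤ 2 * M := by omega
    have : (K : ℝ) ≤ 2 * M := by exact_mod_cast h8
    linarith
  have hlogN : 0 < Real.log N := by linarith
  have h9 : (K : ℝ) / 2 * Real.log N ≤ 8 * N := by
    have h10 : (M : ℝ) * Real.log N ≤ 8 * N := by
      have h11 : 8 * (1 : ℝ) * ((N : ℝ) / Real.log N) * Real.log N = 8 * N := by
        field_simp
      have h12 := mul_le_mul_of_nonneg_right hpiN hlogN.le
      linarith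
    have h13 := mul_le_mul_of_nonneg_right hK1 hlogN.le
    linarith
  have h14 : c * ((K : ℝ) * Real.log N / 16) ≤ lam * Real.log N *
      ({k : ℕ | k ∈ Finset.Icc 1 K ∧ F n j lam k}.ncard : ℝ) := by
    refine le_trans ?_ h4
    apply mul_le_mul_of_nonneg_left _ hc.le
    linarith
  have h15 : c * (K : ℝ) / 16 ≤ lam * ({k : ℕ | k ∈ Finset.Icc 1 K ∧ F n j lam k}.ncard : ℝ) := by
    refine le_of_mul_le_mul_right ?_ hlogN
    calc c * (K : ℝ) / 16 * Real.log N = c * ((K : ℝ) * Real.log N / 16) := by ring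
      _ ≤ _ := h14
      _ = _ := by ring
  have h16 : c / (32 * lam) * K = (c * (K : ℝ) / 16) / (2 * lam) := by
    field_simp
    ring
  rw [h16, div_le_iff₀ (by positivity)]
  have h17 : (0 : ℝ) ≤ lam * ({k : ℕ | k ∈ Finset.Icc 1 K ∧ F n j lam k}.ncard : ℝ) := by positivity
  linarith

end Pool.Agent.H749R6.IX
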